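import Pool.Agent.H816R2.KM2N

/-!
A Steiner system `S(2,6,316)`: 3 copies of an abelian group of order 105 and 1 fixed points.
-/

set_option autoImplicit false

namespace Pool.Agent.H693R3.KM

open Pool.Agent.H816R2.KM2

def full316 : List (List ℕ) :=
  [[0, 1, 11, 116, 140, 204],
   [0, 2, 56, 79, 123, 124],
   [0, 3, 218, 219, 253, 275],
   [0, 7, 153, 169, 243, 303],
   [0, 8, 88, 94, 156, 268],
   [0, 9, 69, 74, 132, 147],
   [0, 22, 159, 199, 277, 284],
   [0, 25, 252, 265, 298, 306],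
   [0, 27, 73, 155, 171, 201],
   [0, 28, 120, 138, 227, 259],
   [0, 29, 97, 217, 254, 278],
   [0, 30, 134, 195, 216, 251],
   [0, 31, 58, 133, 191, 274],
   [0, 33, 93, 210, 226, 229],
   [0, 35, 107, 139, 242, 294],
   [0, 37, 106, 164, 220, 248],
   [0, 38, 92, 108, 162, 289],
   [0, 46, 117, 160, 225, 269],
   [0, 48, 129, 143, 288, 313],
   [0, 50, 126, 161, 235, 264],
   [0, 55, 192, 237, 263, 287],
   [0, 57, 113, 141, 213, 249],
   [0, 62, 185, 212, 245, 307],
   [0, 112, 256, 267, 276, 293],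
   [0, 145, 157, 170, 261, 299],
   [0, 152, 179, 205, 233, 285],
   [0, 158, 163, 178, 187, 224],
   [105, 107, 113, 218, 245, 310],
   [105, 108, 164, 182, 228, 230],
   [105, 115, 149, 160, 273, 296],
   [105, 131, 181, 261, 279, 304]]

def short316 : List (List ℕ × List ℕ) :=
  [([0, 1, 2, 3, 4, 5, 6, 7, 8, 9, 10, 11, 12, 13, 14, 15, 16, 17, 18, 19, 20], [0, 21, 42, 63, 84, 315]),
   ([0, 1, 2, 3, 4, 5, 6, 7, 8, 9, 10, 11, 12, 13, 14, 15, 16, 17, 18, 19, 20], [105, 126, 147, 168, 189, 315]),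
   ([0, 1, 2, 3, 4, 5, 6, 7, 8, 9, 10, 11, 12, 13, 14, 15, 16, 17, 18, 19, 20], [210, 231, 252, 273, 294, 315])]

theorem ex316 : ∃ 𝓑 : Set (Finset (Fin 316)), IsS2 (Fin 316) 6 𝓑 :=
  of_coded (codedP 7 (codedP 3 (codedZ 5))) 6 3 1 316 rfl full316 short316
    (by decide +kernel) (by decide +kernel) (by decide +kernel) (by decide +kernel)
    (by decide +kernel) (by decide +kernel)

end Pool.Agent.H693R3.KM
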