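import Pool.Agent.H816R2.KM2N

/-!
A Steiner system `S(2,6,351)`: 3 copies of an abelian group of order 117 and 0 fixed points.
-/

set_option autoImplicit false

namespace Pool.Agent.H693R3.KM

open Pool.Agent.H816R2.KM2

def full351 : List (List ℕ) :=
  [[0, 1, 215, 306, 331, 333],
   [0, 2, 160, 167, 317, 322],
   [0, 3, 123, 127, 235, 236],
   [0, 4, 210, 275, 314, 327],
   [0, 5, 100, 139, 230, 308],
   [0, 6, 94, 151, 154, 237],
   [0, 13, 78, 162, 163, 247],
   [0, 14, 63, 146, 223, 342],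
   [0, 15, 31, 198, 258, 300],
   [0, 17, 37, 68, 109, 280],
   [0, 18, 27, 46, 80, 297],
   [0, 23, 106, 194, 238, 287],
   [0, 25, 54, 153, 232, 347],
   [0, 26, 195, 250, 257, 338],
   [0, 32, 72, 191, 291, 350],
   [0, 33, 71, 186, 294, 339],
   [0, 43, 125, 252, 269, 309],
   [0, 48, 122, 255, 264, 302],
   [0, 56, 118, 135, 228, 310],
   [0, 57, 137, 184, 218, 248],
   [0, 60, 136, 193, 211, 259],
   [0, 61, 129, 138, 227, 301],
   [0, 117, 182, 221, 265, 268],
   [0, 121, 126, 208, 262, 271],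
   [0, 131, 147, 190, 241, 283],
   [0, 142, 152, 187, 240, 276],
   [0, 143, 170, 181, 273, 299],
   [0, 144, 189, 200, 212, 233],
   [0, 155, 188, 203, 217, 222],
   [0, 157, 224, 242, 296, 324],
   [0, 168, 231, 239, 289, 313],
   [0, 175, 226, 274, 295, 307],
   [0, 176, 229, 285, 290, 304],
   [117, 263, 307, 314, 337, 348],
   [117, 270, 304, 323, 326, 341]]

def short351 : List (List ℕ × List ℕ) :=
  []

theorem ex351 : ∃ 𝓑 : Set (Finset (Fin 351)), IsS2 (Fin 351) 6 𝓑 :=
  of_coded (codedP 13 (codedZ 9)) 6 3 0 351 rfl full351 short351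
    (by decide +kernel) (by decide +kernel) (by decide +kernel) (by decide +kernel)
    (by decide +kernel) (by decide +kernel)

end Pool.Agent.H693R3.KM
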