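import Pool.Agent.H816R2.KM2N

/-!
A Steiner system `S(2,6,376)`: 3 copies of an abelian group of order 125 and 1 fixed points.
-/

set_option autoImplicit false

namespace Pool.Agent.H693R3.KM

open Pool.Agent.H816R2.KM2

def full376 : List (List ℕ) :=
  [[0, 5, 64, 71, 352, 358],
   [0, 6, 118, 218, 342, 344],
   [0, 7, 128, 134, 262, 270],
   [0, 8, 169, 185, 198, 269],
   [0, 9, 192, 242, 267, 367],
   [0, 10, 179, 186, 282, 283],
   [0, 11, 230, 231, 291, 295],
   [0, 13, 155, 158, 217, 221],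
   [0, 14, 227, 237, 329, 335],
   [0, 25, 157, 173, 250, 325],
   [0, 26, 57, 90, 167, 355],
   [0, 27, 68, 119, 164, 187],
   [0, 28, 62, 111, 166, 193],
   [0, 29, 73, 85, 163, 370],
   [0, 30, 266, 287, 347, 371],
   [0, 32, 110, 168, 201, 279],
   [0, 33, 78, 206, 247, 365],
   [0, 34, 171, 252, 307, 330],
   [0, 35, 58, 197, 239, 311],
   [0, 45, 264, 293, 333, 359],
   [0, 46, 159, 253, 323, 345],
   [0, 47, 77, 224, 233, 360],
   [0, 50, 175, 200, 331, 349],
   [0, 56, 126, 254, 327, 366],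
   [0, 74, 129, 251, 328, 364],
   [0, 130, 210, 236, 265, 322],
   [0, 135, 140, 275, 314, 316],
   [0, 145, 215, 244, 260, 308],
   [0, 151, 196, 248, 256, 368],
   [0, 152, 191, 208, 226, 309],
   [0, 153, 189, 222, 229, 321],
   [0, 154, 184, 232, 274, 362],
   [0, 214, 271, 294, 320, 356],
   [0, 216, 259, 286, 305, 374],
   [125, 132, 277, 280, 339, 348],
   [125, 158, 196, 235, 287, 309],
   [125, 160, 182, 219, 303, 331]]

def short376 : List (List ℕ × List ℕ) :=
  [([0, 5, 10, 15, 20, 25, 30, 35, 40, 45, 50, 55, 60, 65, 70, 75, 80, 85, 90, 95, 100, 105, 110, 115, 120], [0, 1, 2, 3, 4, 375]),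
   ([0, 1, 2, 3, 4, 25, 26, 27, 28, 29, 50, 51, 52, 53, 54, 75, 76, 77, 78, 79, 100, 101, 102, 103, 104], [125, 133, 136, 144, 147, 375]),
   ([0, 1, 2, 3, 4, 25, 26, 27, 28, 29, 50, 51, 52, 53, 54, 75, 76, 77, 78, 79, 100, 101, 102, 103, 104], [250, 255, 260, 265, 270, 375])]

theorem ex376 : ∃ 𝓑 : Set (Finset (Fin 376)), IsS2 (Fin 376) 6 𝓑 :=
  of_coded (codedP 5 (codedP 5 (codedZ 5))) 6 3 1 376 rfl full376 short376
    (by decide +kernel) (by decide +kernel) (by decide +kernel) (by decide +kernel)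
    (by decide +kernel) (by decide +kernel)

end Pool.Agent.H693R3.KM
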