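import Pool.Agent.H816R2.KM2N

/-!
A Steiner system `S(2,6,676)`: 3 copies of an abelian group of order 225 and 1 fixed points.
-/

set_option autoImplicit false

namespace Pool.Agent.H693R3.KM

open Pool.Agent.H816R2.KM2

def full676 : List (List ℕ) :=
  [[0, 1, 328, 428, 578, 628],
   [0, 2, 176, 201, 301, 526],
   [0, 5, 311, 324, 667, 668],
   [0, 6, 363, 373, 604, 607],
   [0, 7, 376, 381, 563, 574],
   [0, 8, 416, 417, 535, 548],
   [0, 10, 442, 448, 581, 584],
   [0, 11, 332, 334, 642, 649],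
   [0, 12, 29, 38, 131, 206],
   [0, 27, 391, 434, 640, 656],
   [0, 28, 389, 446, 635, 674],
   [0, 30, 347, 370, 624, 652],
   [0, 31, 89, 178, 258, 343],
   [0, 32, 120, 155, 452, 541],
   [0, 33, 410, 430, 538, 586],
   [0, 34, 144, 218, 277, 506],
   [0, 35, 156, 492, 516, 654],
   [0, 36, 184, 249, 298, 435],
   [0, 37, 321, 354, 490, 511],
   [0, 39, 245, 279, 568, 588],
   [0, 40, 174, 488, 514, 651],
   [0, 41, 230, 276, 562, 592],
   [0, 43, 309, 351, 485, 519],
   [0, 44, 196, 231, 282, 440],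
   [0, 45, 333, 355, 606, 653],
   [0, 46, 136, 212, 278, 524],
   [0, 47, 415, 445, 542, 594],
   [0, 48, 105, 170, 453, 539],
   [0, 49, 91, 177, 272, 337],
   [0, 77, 293, 371, 489, 559],
   [0, 78, 287, 359, 491, 571],
   [0, 84, 254, 431, 501, 632],
   [0, 85, 247, 253, 349, 395],
   [0, 86, 470, 502, 598, 622],
   [0, 88, 289, 302, 487, 528],
   [0, 90, 233, 252, 331, 380],
   [0, 92, 291, 303, 493, 527],
   [0, 94, 455, 503, 582, 608],
   [0, 96, 251, 449, 504, 648],
   [0, 100, 250, 300, 655, 670],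
   [0, 108, 246, 341, 462, 564],
   [0, 113, 374, 433, 486, 530],
   [0, 114, 295, 329, 484, 560],
   [0, 116, 280, 326, 496, 565],
   [0, 117, 356, 447, 494, 545],
   [0, 122, 234, 339, 468, 566],
   [0, 125, 408, 422, 500, 525],
   [0, 130, 239, 362, 471, 593],
   [0, 137, 284, 361, 497, 576],
   [0, 138, 285, 308, 573, 630],
   [0, 142, 290, 322, 557, 645],
   [0, 143, 296, 369, 483, 579],
   [0, 145, 241, 368, 459, 587],
   [0, 225, 550, 575, 610, 615],
   [0, 237, 480, 517, 531, 621],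
   [0, 243, 495, 513, 549, 609],
   [0, 263, 297, 323, 384, 466],
   [0, 267, 283, 307, 396, 464],
   [0, 325, 350, 386, 394, 450],
   [225, 234, 261, 273, 367, 442],
   [225, 260, 416, 467, 506, 654],
   [225, 263, 318, 408, 480, 559],
   [225, 265, 414, 463, 524, 651],
   [225, 267, 312, 422, 495, 571],
   [225, 301, 455, 497, 563, 602],
   [225, 304, 470, 483, 567, 603],
   [450, 459, 510, 524, 567, 642]]

def short676 : List (List ℕ × List ℕ) :=
  [([0, 1, 2, 3, 4, 25, 26, 27, 28, 29, 50, 51, 52, 53, 54, 75, 76, 77, 78, 79, 100, 101, 102, 103, 104, 125, 126, 127, 128, 129, 150, 151, 152, 153, 154, 175, 176, 177, 178, 179, 200, 201, 202, 203, 204], [0, 9, 13, 17, 21, 675]),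
   ([0, 1, 2, 3, 4, 25, 26, 27, 28, 29, 50, 51, 52, 53, 54, 75, 76, 77, 78, 79, 100, 101, 102, 103, 104, 125, 126, 127, 128, 129, 150, 151, 152, 153, 154, 175, 176, 177, 178, 179, 200, 201, 202, 203, 204], [225, 232, 239, 241, 248, 675]),
   ([0, 1, 2, 3, 4, 25, 26, 27, 28, 29, 50, 51, 52, 53, 54, 75, 76, 77, 78, 79, 100, 101, 102, 103, 104, 125, 126, 127, 128, 129, 150, 151, 152, 153, 154, 175, 176, 177, 178, 179, 200, 201, 202, 203, 204], [450, 456, 462, 468, 474, 675])]

theorem ex676 : ∃ 𝓑 : Set (Finset (Fin 676)), IsS2 (Fin 676) 6 𝓑 :=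
  of_coded (codedP 5 (codedP 5 (codedP 3 (codedZ 3)))) 6 3 1 676 rfl full676 short676
    (by decide +kernel) (by decide +kernel) (by decide +kernel) (by decide +kernel)
    (by decide +kernel) (by decide +kernel)

end Pool.Agent.H693R3.KM
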