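import Mathlib

set_option autoImplicit false

namespace Pool.Agent.H693R3.SpecDir

open Finset

variable {p : ℕ} [Fact p.Prime]

/-- The difference operator. -/
def Dl (h : ZMod p) (g : ZMod p → ZMod p) : ZMod p → ZMod p := fun x => g (x + h) - g x

/-- All `m`-fold differences vanish. -/
def PolyC : ℕ → (ZMod p → ZMod p) → Prop
  | 0, g => ∀ x, g x = 0
  | (m+1), g => ∀ h, PolyC m (Dl h g)

lemma PolyC_zero (m : ℕ) : PolyC m (fun _ : ZMod p => (0 : ZMod p)) := by
  induction m with
  | zero => intro x; rfl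
  | succ m ih =>
    intro h
    have : Dl h (fun _ : ZMod p => (0 : ZMod p)) = fun _ => 0 := by
      funext x; simp [Dl]
    rw [this]; exact ih

lemma PolyC_add (m : ℕ) : ∀ f g : ZMod p → ZMod p, PolyC m f → PolyC m g →
    PolyC m (fun x => f x + g x) := by
  induction m with
  | zero => intro f g hf hg x; simp only [PolyC] at hf hg; simp [hf x, hg x]
  | succ m ih =>
    intro f g hf hg h
    have : Dl h (fun x => f x + g x) = fun x => Dl h f x + Dl h g x := by
      funext x; simp only [Dl]; ring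
    rw [this]; exact ih _ _ (hf h) (hg h)

lemma PolyC_smul (m : ℕ) (c : ZMod p) : ∀ f : ZMod p → ZMod p, PolyC m f →
    PolyC m (fun x => c * f x) := by
  induction m with
  | zero => intro f hf x; simp only [PolyC] at hf; simp [hf x]
  | succ m ih =>
    intro f hf h
    have : Dl h (fun x => c * f x) = fun x => c * Dl h f x := by
      funext x; simp only [Dl]; ring
    rw [this]; exact ih _ (hf h)

lemma PolyC_trans (m : ℕ) (a : ZMod p) : ∀ f : ZMod p → ZMod p, PolyC m f →
    PolyC m (fun x => f (x + a)) := by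
  induction m with
  | zero => intro f hf x; exact hf _
  | succ m ih =>
    intro f hf h
    have : Dl h (fun x => f (x + a)) = fun x => Dl h f (x + a) := by
      funext x; simp only [Dl]; congr 2; ring
    rw [this]; exact ih _ (hf h)

lemma PolyC_mul_step (m : ℕ) (h : ZMod p) (g : ZMod p → ZMod p) (hg : PolyC m (Dl h g)) :
    ∀ j : ℕ, PolyC m (Dl ((j : ZMod p) * h) g) := by
  intro j
  induction j with
  | zero =>
    have : Dl (((0 : ℕ) : ZMod p) * h) g = fun _ => 0 := by
      funext x; simp [Dl]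
    rw [this]; exact PolyC_zero m
  | succ j ih =>
    have : Dl (((j + 1 : ℕ) : ZMod p) * h) g
        = fun x => Dl ((j : ZMod p) * h) g x + Dl h g (x + (j : ZMod p) * h) := by
      funext x; simp only [Dl]; push_cast
      have : x + ((j : ZMod p) + 1) * h = x + (j : ZMod p) * h + h := by ring
      rw [this]; ring
    rw [this]
    exact PolyC_add m _ _ ih (PolyC_trans m _ _ hg)

lemma exists_nat_mul (h : ZMod p) (hh : h ≠ 0) (h' : ZMod p) : ∃ j : ℕ, (j : ZMod p) * h = h' := by
  refine ⟨(h' / h).val, ?_⟩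
  rw [ZMod.natCast_zmod_val]
  field_simp

/-- One nonzero difference of class `m` suffices for class `m+1`. -/
lemma PolyC_of_Dl (m : ℕ) (h : ZMod p) (hh : h ≠ 0) (g : ZMod p → ZMod p)
    (hg : PolyC m (Dl h g)) : PolyC (m+1) g := by
  intro h'
  obtain ⟨j, hj⟩ := exists_nat_mul h hh h'
  rw [← hj]
  exact PolyC_mul_step m h g hg j

lemma const_of_period (g : ZMod p → ZMod p) (h : ZMod p) (hh : h ≠ 0)
    (hg : ∀ x, g (x + h) = g x) : ∀ x, g x = g 0 := by
  have key : ∀ j : ℕ, g ((j : ZMod p) * h) = g 0 := by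
    intro j
    induction j with
    | zero => simp
    | succ j ih =>
      have : ((j + 1 : ℕ) : ZMod p) * h = (j : ZMod p) * h + h := by push_cast; ring
      rw [this, hg, ih]
  intro x
  obtain ⟨j, hj⟩ := exists_nat_mul h hh x
  rw [← hj]; exact key j

lemma const_of_PolyC_one (g : ZMod p → ZMod p) (hg : PolyC 1 g) : ∀ x, g x = g 0 := by
  intro x
  have := hg x 0
  simp only [Dl, zero_add] at this
  exact sub_eq_zero.mp this

/-- The exponential sum. -/
noncomputable def W (g : ZMod p → ZMod p) : ℂ := ∑ x, ZMod.stdAddChar (g x)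

lemma norm_stdAddChar (x : ZMod p) : ‖(ZMod.stdAddChar x : ℂ)‖ = 1 := by
  rw [ZMod.stdAddChar_apply]; exact Circle.norm_coe _

lemma norm_W_le (g : ZMod p → ZMod p) : ‖W g‖ ≤ p := by
  unfold W
  refine (norm_sum_le _ _).trans ?_
  simp [ZMod.card]

lemma W_sq (g : ZMod p → ZMod p) :
    (W g) * (starRingEnd ℂ) (W g) = ∑ h : ZMod p, W (Dl h g) := by
  unfold W
  rw [map_sum, Finset.sum_mul_sum]
  rw [Finset.sum_comm]
  have h1 : ∀ x : ZMod p, ∑ y : ZMod p, (ZMod.stdAddChar (g y) : ℂ) * (starRingEnd ℂ) (ZMod.stdAddChar (g x))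
      = ∑ h : ZMod p, (ZMod.stdAddChar (Dl h g x) : ℂ) := by
    intro x
    rw [← Equiv.sum_comp (Equiv.addLeft x)]
    refine Finset.sum_congr rfl fun h _ => ?_
    rw [← AddChar.map_neg_eq_conj, ← AddChar.map_add_eq_mul]
    simp only [Dl, Equiv.coe_addLeft]
    congr 1
    exact (sub_eq_add_neg _ _).symm
  rw [Finset.sum_congr rfl fun x _ => h1 x]
  rw [Finset.sum_comm]

lemma norm_W_sq_le (g : ZMod p → ZMod p) (B : ℝ)
    (hB : ∀ h : ZMod p, h ≠ 0 → ‖W (Dl h g)‖ ≤ B) :
    ‖W g‖ ^ 2 ≤ p + (p - 1) * B := by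
  have h1 : (‖W g‖ ^ 2 : ℝ) = ‖(W g) * (starRingEnd ℂ) (W g)‖ := by
    rw [norm_mul, RCLike.norm_conj]; ring
  rw [h1, W_sq]
  refine (norm_sum_le _ _).trans ?_
  rw [← Finset.add_sum_erase _ _ (Finset.mem_univ (0 : ZMod p))]
  refine add_le_add (norm_W_le _) ?_
  refine (Finset.sum_le_card_nsmul _ _ B ?_).trans ?_
  · intro h hh
    exact hB h (Finset.ne_of_mem_erase hh)
  · rw [Finset.card_erase_of_mem (Finset.mem_univ _), Finset.card_univ, ZMod.card, nsmul_eq_mul]
    have hp : 1 ≤ p := (Fact.out : p.Prime).one_le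
    push_cast [Nat.cast_sub hp]
    exact le_rfl

lemma W_eq_zero_of_affine (g : ZMod p → ZMod p) (h c : ZMod p) (hc : c ≠ 0)
    (hg : ∀ x, g (x + h) = g x + c) : W g = 0 := by
  have h1 : W g = ZMod.stdAddChar c * W g := by
    conv_lhs => unfold W
    rw [← Equiv.sum_comp (Equiv.addRight h)]
    simp only [Equiv.coe_addRight, hg, AddChar.map_add_eq_mul]
    rw [← Finset.sum_mul]
    unfold W; ring
  have h2 : (ZMod.stdAddChar c : ℂ) ≠ 1 := by
    intro h
    rw [← (ZMod.stdAddChar (N := p)).map_zero_eq_one, ZMod.injective_stdAddChar.eq_iff] at h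
    exact hc h
  have h3 : (1 - (ZMod.stdAddChar c : ℂ)) * W g = 0 := by
    linear_combination h1
  rcases mul_eq_zero.mp h3 with h | h
  · exact absurd (sub_eq_zero.mp h).symm h2
  · exact h

/-- The saving factor `p ^ (-1/2^m)`. -/
noncomputable def sav (p m : ℕ) : ℝ := (p : ℝ) ^ (-(1 / 2 ^ m : ℝ))

lemma sav_sq (p m : ℕ) (hp : 0 < p) : (sav p (m+1)) ^ 2 = sav p m := by
  unfold sav
  rw [← Real.rpow_natCast, ← Real.rpow_mul (by positivity)]
  congr 1
  rw [pow_succ]; push_cast; field_simp

lemma sav_pos (p m : ℕ) (hp : 0 < p) : 0 < sav p m := by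
  unfold sav; positivity

lemma inv_le_sav (p m : ℕ) (hp : 0 < p) : 1 / (p : ℝ) ≤ sav p m := by
  unfold sav
  have h1 : (1 : ℝ) ≤ p := by exact_mod_cast hp
  have : 1 / (p : ℝ) = (p : ℝ) ^ (-1 : ℝ) := by
    rw [Real.rpow_neg_one]; simp
  rw [this]
  apply Real.rpow_le_rpow_of_exponent_le h1
  have : (1 / 2 ^ m : ℝ) ≤ 1 := by
    rw [div_le_one (by positivity)]
    exact one_le_pow₀ (by norm_num)
  linarith

/-- Weyl's bound. -/
theorem weyl (m : ℕ) : ∀ g : ZMod p → ZMod p, PolyC m g → (¬ ∀ x, g x = g 0) →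
    ‖W g‖ ≤ 2 * (p * sav p m) := by
  have hp : 0 < p := (Fact.out : p.Prime).pos
  induction m with
  | zero =>
    intro g hg hn
    exact absurd (fun x => by rw [hg x, hg 0]) hn
  | succ m ih =>
    intro g hg hn
    by_cases hc : ∃ h : ZMod p, h ≠ 0 ∧ ∀ x, Dl h g x = Dl h g 0
    · obtain ⟨h, hh, hc⟩ := hc
      have h0 : W g = 0 := by
        by_cases hz : Dl h g 0 = 0
        · exfalso; apply hn
          apply const_of_period g h hh
          intro x
          have := hc x
          rw [hz] at this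
          exact sub_eq_zero.mp this
        · apply W_eq_zero_of_affine g h (Dl h g 0) hz
          intro x
          have := hc x
          simp only [Dl] at this ⊢
          linear_combination this
      rw [h0, norm_zero]
      have := sav_pos p (m+1) hp
      positivity
    · push Not at hc
      have h1 : ‖W g‖ ^ 2 ≤ p + (p - 1) * (2 * (p * sav p m)) := by
        apply norm_W_sq_le
        intro h hh
        apply ih _ (hg h)
        intro hcon
        obtain ⟨x, hx⟩ := hc h hh
        exact hx (hcon x)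
      have h2 : (p : ℝ) + (p - 1) * (2 * (p * sav p m)) ≤ (2 * (p * sav p (m+1))) ^ 2 := by
        have e1 : (2 * ((p:ℝ) * sav p (m+1))) ^ 2 = 4 * p ^ 2 * sav p m := by
          rw [← sav_sq p m hp]; ring
        rw [e1]
        have h3 := inv_le_sav p m hp
        have hpp : (0 : ℝ) < p := by exact_mod_cast hp
        have h4 : (p : ℝ) ≤ p ^ 2 * sav p m := by
          have : (p : ℝ) = p ^ 2 * (1 / p) := by field_simp
          calc (p : ℝ) = p ^ 2 * (1 / p) := this
            _ ≤ _ := by gcongr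
        have h5 := sav_pos p m hp
        nlinarith [mul_pos hpp h5, mul_pos (mul_pos hpp hpp) h5]
      have h3 := sav_pos p (m+1) hp
      exact abs_le_of_sq_le_sq' (h1.trans h2) (by positivity) |>.2

end Pool.Agent.H693R3.SpecDir
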