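import Pool.Agent.H693R3.SpecDir1

set_option autoImplicit false

namespace Pool.Agent.H693R3.SpecDir

open Finset

variable {p : ℕ} [Fact p.Prime]

lemma sum_char_mul (b : ZMod p) :
    ∑ h : ZMod p, (ZMod.stdAddChar (h * b) : ℂ) = if b = 0 then (p : ℂ) else 0 := by
  have := AddChar.sum_mulShift (R := ZMod p) (R' := ℂ) (ψ := ZMod.stdAddChar) b
    (ZMod.isPrimitive_stdAddChar p)
  rw [this, ZMod.card]
  split_ifs <;> simp

/-- Fourier coefficient (unnormalised). -/
noncomputable def FC (φ : ZMod p → ℂ) (h : ZMod p) : ℂ :=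
  ∑ a : ZMod p, φ a * ZMod.stdAddChar (-(h * a))

lemma fourier_inv (φ : ZMod p → ℂ) (g : ZMod p → ZMod p) :
    (p : ℂ) * ∑ t : ZMod p, φ (g t) = ∑ h : ZMod p, FC φ h * W (fun t => h * g t) := by
  have h1 : ∀ t : ZMod p, (p : ℂ) * φ (g t)
      = ∑ h : ZMod p, ∑ a : ZMod p, φ a * ZMod.stdAddChar (h * (g t - a)) := by
    intro t
    rw [Finset.sum_comm]
    simp_rw [← Finset.mul_sum, sum_char_mul]
    rw [Finset.sum_eq_single (g t)]
    · simp [mul_comm]
    · intro b _ hb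
      rw [if_neg (sub_ne_zero.mpr (Ne.symm hb)), mul_zero]
    · intro h; exact absurd (Finset.mem_univ _) h
  rw [Finset.mul_sum, Finset.sum_congr rfl fun t _ => h1 t, Finset.sum_comm]
  refine Finset.sum_congr rfl fun h _ => ?_
  unfold FC W
  rw [Finset.sum_mul_sum, Finset.sum_comm]
  refine Finset.sum_congr rfl fun a _ => Finset.sum_congr rfl fun t _ => ?_
  rw [mul_assoc, ← AddChar.map_add_eq_mul]
  congr 2; ring

lemma FC_zero (φ : ZMod p → ℂ) : FC φ 0 = ∑ a, φ a := by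
  simp [FC]

lemma W_zero : W (fun t : ZMod p => (0 : ZMod p) * t) = p := by
  simp [W, ZMod.card]

lemma FC_bound (φ : ZMod p → ℂ) (h : ZMod p) (V : ℝ)
    (hV : ∑ a : ZMod p, ‖φ (a + 1) - φ a‖ ≤ V) :
    ‖FC φ h‖ * ‖(1 : ℂ) - ZMod.stdAddChar h‖ ≤ V := by
  have h1 : FC φ h * (1 - ZMod.stdAddChar h) =
      - ∑ a : ZMod p, (φ (a + 1) - φ a) * ZMod.stdAddChar (-(h * a)) := by
    have h2 : FC φ h * ZMod.stdAddChar h
        = ∑ a : ZMod p, φ (a + 1) * ZMod.stdAddChar (-(h * a)) := by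
      unfold FC
      rw [Finset.sum_mul, ← Equiv.sum_comp (Equiv.addRight (1 : ZMod p))]
      refine Finset.sum_congr rfl fun a _ => ?_
      rw [mul_assoc, ← AddChar.map_add_eq_mul]
      simp only [Equiv.coe_addRight]
      congr 2; ring
    rw [mul_sub, mul_one, h2]
    unfold FC
    rw [← Finset.sum_sub_distrib, ← Finset.sum_neg_distrib]
    refine Finset.sum_congr rfl fun a _ => ?_
    ring
  rw [← norm_mul, h1, norm_neg]
  refine (norm_sum_le _ _).trans (le_trans (le_of_eq ?_) hV)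
  refine Finset.sum_congr rfl fun a _ => ?_
  rw [norm_mul, norm_stdAddChar, mul_one]

lemma norm_one_sub_char (n : ℕ) (hn0 : 0 < n) (hn : n < p) :
    (4 * n * (p - n) / p ^ 2 : ℝ) ≤ ‖(1 : ℂ) - ZMod.stdAddChar ((n : ℕ) : ZMod p)‖ := by
  have hpp : (0 : ℝ) < p := by exact_mod_cast (Fact.out : p.Prime).pos
  have hn' : (0 : ℝ) < n := by exact_mod_cast hn0
  have hnp : (n : ℝ) < p := by exact_mod_cast hn
  have e1 : (ZMod.stdAddChar ((n : ℕ) : ZMod p) : ℂ)
      = Complex.exp (2 * Real.pi * Complex.I * n / p) := by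
    have := ZMod.stdAddChar_coe (N := p) (n : ℤ)
    simpa using this
  have e2 : ‖(1 : ℂ) - ZMod.stdAddChar ((n : ℕ) : ZMod p)‖ = 2 * Real.sin (Real.pi * n / p) := by
    rw [e1]
    have e3 : Complex.exp (2 * Real.pi * Complex.I * n / p)
        = Complex.exp (((Real.pi * n / p : ℝ) : ℂ) * Complex.I)
          * Complex.exp (((Real.pi * n / p : ℝ) : ℂ) * Complex.I) := by
      rw [← Complex.exp_add]; congr 1; push_cast; ring
    have e4 : (1 : ℂ) = Complex.exp (((Real.pi * n / p : ℝ) : ℂ) * Complex.I)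
          * Complex.exp (-(((Real.pi * n / p : ℝ) : ℂ) * Complex.I)) := by
      rw [← Complex.exp_add]; simp
    rw [e3]
    conv_lhs => rw [e4]
    rw [← mul_sub, norm_mul, Complex.norm_exp_ofReal_mul_I, one_mul]
    have e5 : Complex.exp (-(((Real.pi * n / p : ℝ) : ℂ) * Complex.I))
        - Complex.exp (((Real.pi * n / p : ℝ) : ℂ) * Complex.I)
        = -(2 * Complex.I * Complex.sin ((Real.pi * n / p : ℝ) : ℂ)) := by
      rw [Complex.sin, neg_mul]
      have : Complex.I * Complex.I = -1 := Complex.I_mul_I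
      linear_combination (Complex.exp (-(((Real.pi * n / p : ℝ) : ℂ) * Complex.I))
        - Complex.exp (((Real.pi * n / p : ℝ) : ℂ) * Complex.I)) * (this)
    rw [e5, norm_neg, norm_mul, norm_mul, Complex.norm_I, ← Complex.ofReal_sin, Complex.norm_real,
      Real.norm_eq_abs, abs_of_nonneg]
    · simp
    · apply Real.sin_nonneg_of_nonneg_of_le_pi
      · positivity
      · rw [div_le_iff₀ hpp]
        have := Real.pi_pos
        nlinarith
  rw [e2]
  have hpi := Real.pi_pos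
  by_cases hh : (2 * n : ℝ) ≤ p
  · have h1 := Real.mul_le_sin (x := Real.pi * n / p) (by positivity) (by
      rw [div_le_div_iff₀ hpp (by norm_num)]; nlinarith)
    have h2 : 2 / Real.pi * (Real.pi * n / p) = 2 * n / p := by field_simp
    rw [h2] at h1
    have h3 : (4 * n * (p - n) / p ^ 2 : ℝ) ≤ 2 * (2 * n / p) := by
      rw [div_le_iff₀ (by positivity)]
      have : 2 * (2 * (n:ℝ) / p) * p ^ 2 = 4 * n * p := by field_simp; ring
      rw [this]; nlinarith
    linarith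
  · push Not at hh
    have h0 : Real.sin (Real.pi * n / p) = Real.sin (Real.pi * (p - n) / p) := by
      rw [← Real.sin_pi_sub]; congr 1; field_simp
    have h1 := Real.mul_le_sin (x := Real.pi * (p - n) / p) (by
        have : (0:ℝ) < p - n := by linarith
        positivity) (by
      rw [div_le_div_iff₀ hpp (by norm_num)]; nlinarith)
    have h2 : 2 / Real.pi * (Real.pi * (p - n) / p) = 2 * (p - n) / p := by field_simp
    rw [h2] at h1
    have h3 : (4 * n * (p - n) / p ^ 2 : ℝ) ≤ 2 * (2 * (p - n) / p) := by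
      rw [div_le_iff₀ (by positivity)]
      have : 2 * (2 * ((p:ℝ) - n) / p) * p ^ 2 = 4 * (p - n) * p := by field_simp; ring
      rw [this]; nlinarith
    rw [h0]; linarith

lemma sum_zmod_eq_range (F : ZMod p → ℝ) :
    ∑ a : ZMod p, F a = ∑ i ∈ Finset.range p, F ((i : ℕ) : ZMod p) := by
  symm
  refine Finset.sum_bij' (fun i _ => ((i : ℕ) : ZMod p)) (fun a _ => a.val) ?_ ?_ ?_ ?_ ?_
  · intro a _; exact Finset.mem_univ _
  · intro a _; exact Finset.mem_range.mpr (ZMod.val_lt a)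
  · intro a ha; exact ZMod.val_cast_of_lt (Finset.mem_range.mp ha)
  · intro a _; exact ZMod.natCast_zmod_val a
  · intro a _; rfl

/-- `∑_{h ≠ 0} 1/|1 - e(h)| ≤ (p/2) (1 + log p)` -/
lemma sum_inv_le : ∑ h ∈ (Finset.univ.erase (0 : ZMod p)), 1 / ‖(1 : ℂ) - ZMod.stdAddChar h‖
    ≤ p / 2 * (1 + Real.log p) := by
  have hp1 : 1 ≤ p := (Fact.out : p.Prime).one_le
  have hpp : (0 : ℝ) < p := by exact_mod_cast (Fact.out : p.Prime).pos
  have h1 : ∑ h ∈ (Finset.univ.erase (0 : ZMod p)), 1 / ‖(1 : ℂ) - ZMod.stdAddChar h‖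
      = ∑ i ∈ Finset.range (p-1), 1 / ‖(1 : ℂ) - ZMod.stdAddChar (((i + 1 : ℕ)) : ZMod p)‖ := by
    symm
    refine Finset.sum_bij' (fun i _ => ((i + 1 : ℕ) : ZMod p)) (fun a _ => a.val - 1) ?_ ?_ ?_ ?_ ?_
    · intro a ha
      have ha := Finset.mem_range.mp ha
      refine Finset.mem_erase.mpr ⟨?_, Finset.mem_univ _⟩
      intro h0
      rw [ZMod.natCast_eq_zero_iff] at h0
      have := Nat.le_of_dvd (by omega) h0
      omega
    · intro a ha
      have ha := (Finset.mem_erase.mp ha).1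
      have h2 : a.val ≠ 0 := by
        intro h; apply ha; rwa [ZMod.val_eq_zero] at h
      have h3 := ZMod.val_lt a
      exact Finset.mem_range.mpr (by omega)
    · intro a ha
      have ha := Finset.mem_range.mp ha
      rw [ZMod.val_cast_of_lt (by omega)]; omega
    · intro a ha
      have ha := (Finset.mem_erase.mp ha).1
      have h2 : a.val ≠ 0 := by
        intro h; apply ha; rwa [ZMod.val_eq_zero] at h
      rw [Nat.sub_add_cancel (by omega), ZMod.natCast_zmod_val]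
    · intro a _; rfl
  rw [h1]
  have h2 : ∀ i ∈ Finset.range (p-1),
      1 / ‖(1 : ℂ) - ZMod.stdAddChar (((i + 1 : ℕ)) : ZMod p)‖
      ≤ (p : ℝ) / 4 * (1 / ((i : ℝ) + 1) + 1 / (((p - 1 - 1 - i : ℕ) : ℝ) + 1)) := by
    intro i hi
    have hi := Finset.mem_range.mp hi
    have h3 := norm_one_sub_char (p := p) (i+1) (by omega) (by omega)
    have e1 : (((p - 1 - 1 - i : ℕ) : ℝ) + 1) = p - ((i + 1 : ℕ) : ℝ) := by
      have : p - 1 - 1 - i + 1 + (i + 1) = p := by omega
      have h4 : (((p - 1 - 1 - i + 1 + (i + 1) : ℕ)) : ℝ) = p := by rw [this]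
      push_cast at h4 ⊢
      linarith
    rw [e1]
    have hpos1 : (0 : ℝ) < ((i + 1 : ℕ) : ℝ) := by positivity
    have hpos2 : (0 : ℝ) < p - ((i + 1 : ℕ) : ℝ) := by
      rw [← e1]; positivity
    have hpos : (0 : ℝ) < 4 * ((i + 1 : ℕ) : ℝ) * (p - ((i + 1 : ℕ) : ℝ)) / p ^ 2 := by positivity
    calc 1 / ‖(1 : ℂ) - ZMod.stdAddChar (((i + 1 : ℕ)) : ZMod p)‖
        ≤ 1 / (4 * ((i + 1 : ℕ) : ℝ) * (p - ((i + 1 : ℕ) : ℝ)) / p ^ 2) :=
          one_div_le_one_div_of_le hpos h3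
      _ = (p : ℝ) / 4 * (1 / ((i : ℝ) + 1) + 1 / (p - ((i + 1 : ℕ) : ℝ))) := by
          push_cast at hpos1 hpos2 ⊢
          field_simp
          ring
  refine (Finset.sum_le_sum h2).trans ?_
  rw [← Finset.mul_sum, Finset.sum_add_distrib]
  rw [Finset.sum_range_reflect (fun i => 1 / (((i : ℕ) : ℝ) + 1)) (p-1)]
  have h4 : ∑ j ∈ Finset.range (p-1), 1 / ((j : ℝ) + 1) ≤ 1 + Real.log p := by
    have h5 := harmonic_le_one_add_log (p-1)
    have h6 : ((harmonic (p-1) : ℚ) : ℝ) = ∑ j ∈ Finset.range (p-1), 1 / ((j : ℝ) + 1) := by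
      unfold harmonic; push_cast; simp
    rw [h6] at h5
    refine h5.trans ?_
    have h7 : Real.log ((p - 1 : ℕ) : ℝ) ≤ Real.log p := by
      by_cases h8 : p - 1 = 0
      · rw [h8]; simp; exact Real.log_nonneg (by exact_mod_cast hp1)
      · apply Real.log_le_log (by exact_mod_cast Nat.pos_of_ne_zero h8)
        exact_mod_cast Nat.sub_le _ _
    linarith
  calc (p : ℝ) / 4 * (∑ j ∈ Finset.range (p-1), 1 / ((j : ℝ) + 1) + ∑ j ∈ Finset.range (p-1), 1 / ((j : ℝ) + 1))
      ≤ (p : ℝ) / 4 * ((1 + Real.log p) + (1 + Real.log p)) := by gcongr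
    _ = _ := by ring

/-- The error function. -/
noncomputable def eta (p m : ℕ) : ℝ := sav p m * (1 + Real.log p)

/-- Main equidistribution inequality. -/
theorem equidist (m : ℕ) (g : ZMod p → ZMod p) (hg : PolyC m g) (hn : ¬ ∀ x, g x = g 0)
    (φ : ZMod p → ℂ) (V : ℝ) (hV : ∑ a : ZMod p, ‖φ (a + 1) - φ a‖ ≤ V) :
    ‖∑ t : ZMod p, φ (g t) - ∑ a : ZMod p, φ a‖ ≤ V * (p * eta p m) := by
  have hpp : (0 : ℝ) < p := by exact_mod_cast (Fact.out : p.Prime).pos
  have hp0 : 0 < p := (Fact.out : p.Prime).pos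
  have hV0 : 0 ≤ V := le_trans (Finset.sum_nonneg fun _ _ => norm_nonneg _) hV
  have h1 := fourier_inv φ g
  rw [← Finset.add_sum_erase Finset.univ (fun h => FC φ h * W (fun t => h * g t))
    (Finset.mem_univ (0 : ZMod p)), FC_zero] at h1
  have h2 : W (fun t : ZMod p => (0 : ZMod p) * g t) = p := by
    simp [W, ZMod.card]
  rw [h2] at h1
  have h3 : (p : ℂ) * (∑ t : ZMod p, φ (g t) - ∑ a : ZMod p, φ a)
      = ∑ h ∈ Finset.univ.erase (0 : ZMod p), FC φ h * W (fun t => h * g t) := by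
    rw [mul_sub, h1]; ring
  have h4 : (p : ℝ) * ‖∑ t : ZMod p, φ (g t) - ∑ a : ZMod p, φ a‖
      ≤ V * (2 * (p * sav p m)) * (p / 2 * (1 + Real.log p)) := by
    have h5 : (p : ℝ) * ‖∑ t : ZMod p, φ (g t) - ∑ a : ZMod p, φ a‖
        = ‖∑ h ∈ Finset.univ.erase (0 : ZMod p), FC φ h * W (fun t => h * g t)‖ := by
      rw [← h3, norm_mul]; simp
    rw [h5]
    refine (norm_sum_le _ _).trans ?_
    have h6 : ∀ h ∈ Finset.univ.erase (0 : ZMod p), ‖FC φ h * W (fun t => h * g t)‖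
        ≤ V * (2 * (p * sav p m)) * (1 / ‖(1 : ℂ) - ZMod.stdAddChar h‖) := by
      intro h hh
      have hh := (Finset.mem_erase.mp hh).1
      have h7 := weyl m (fun t => h * g t) (PolyC_smul m h g hg) (by
        intro hcon; apply hn; intro x
        exact mul_left_cancel₀ hh (hcon x))
      have h8 := FC_bound φ h V hV
      have h9 : 0 < ‖(1 : ℂ) - ZMod.stdAddChar h‖ := by
        rw [norm_pos_iff, sub_ne_zero]
        intro h
        rw [← (ZMod.stdAddChar (N := p)).map_zero_eq_one, ZMod.injective_stdAddChar.eq_iff] at h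
        exact hh h.symm
      rw [norm_mul]
      have h10 : ‖FC φ h‖ ≤ V * (1 / ‖(1 : ℂ) - ZMod.stdAddChar h‖) := by
        rw [mul_one_div, le_div_iff₀ h9]; exact h8
      have h11 := sav_pos p m hp0
      calc ‖FC φ h‖ * ‖W (fun t => h * g t)‖
          ≤ (V * (1 / ‖(1 : ℂ) - ZMod.stdAddChar h‖)) * (2 * (p * sav p m)) := by
            gcongr
        _ = _ := by ring
    refine (Finset.sum_le_sum h6).trans ?_
    rw [← Finset.mul_sum]
    have h12 := sum_inv_le (p := p)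
    have h11 := sav_pos p m hp0
    gcongr
  have h13 : V * (2 * (p * sav p m)) * (p / 2 * (1 + Real.log p)) = p * (V * (p * eta p m)) := by
    unfold eta; ring
  rw [h13] at h4
  exact le_of_mul_le_mul_left h4 hpp

end Pool.Agent.H693R3.SpecDir
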