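import Pool.Agent.H693R3.SpecDir2

set_option autoImplicit false

namespace Pool.Agent.H693R3.SpecDir

open Finset

variable {p : ℕ} [Fact p.Prime]

/-- The linear form of a direction. -/
def L (d : Option (ZMod p)) (q : ZMod p × ZMod p) : ZMod p := d.elim q.1 (fun m => q.2 - m * q.1)

/-- line counts -/
def N (S : Finset (ZMod p × ZMod p)) (d : Option (ZMod p)) (b : ZMod p) : ℕ :=
  (S.filter (fun q => L d q = b)).card

lemma L_add (d : Option (ZMod p)) (q v : ZMod p × ZMod p) : L d (q + v) = L d q + L d v := by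
  cases d with
  | none => simp [L]
  | some m => simp [L]; ring

lemma L_count (s q : ZMod p × ZMod p) :
    ∑ d : Option (ZMod p), (if L d s = L d q then 1 else 0) = 1 + p * (if s = q then 1 else 0) := by
  rw [Fintype.sum_option]
  by_cases h1 : s.1 = q.1
  · by_cases h2 : s.2 = q.2
    · have hsq : s = q := Prod.ext h1 h2
      subst hsq
      simp [ZMod.card]
    · have hsq : s ≠ q := fun h => h2 (by rw [h])
      have : ∀ m : ZMod p, ¬ (L (some m) s = L (some m) q) := by
        intro m h
        simp only [L, Option.elim] at h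
        rw [h1] at h
        exact h2 (sub_left_injective h)
      simp only [this, if_false, Finset.sum_const_zero, hsq, mul_zero, add_zero]
      rw [if_pos]
      simpa [L] using h1
  · have hsq : s ≠ q := fun h => h1 (by rw [h])
    have hne : s.1 - q.1 ≠ 0 := sub_ne_zero.mpr h1
    have h3 : ∀ m : ZMod p, (L (some m) s = L (some m) q) ↔ m = (s.2 - q.2) / (s.1 - q.1) := by
      intro m
      simp only [L, Option.elim]
      rw [eq_div_iff hne]
      constructor
      · intro h; linear_combination -h
      · intro h; linear_combination -h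
    simp only [h3, Finset.sum_ite_eq', Finset.mem_univ, if_true, hsq, if_false, mul_zero, add_zero]
    rw [if_neg]
    simpa [L] using h1

lemma inversion (S : Finset (ZMod p × ZMod p)) (q : ZMod p × ZMod p) :
    ∑ d : Option (ZMod p), N S d (L d q) = S.card + p * (if q ∈ S then 1 else 0) := by
  have h1 : ∀ d : Option (ZMod p), N S d (L d q) = ∑ s ∈ S, if L d s = L d q then 1 else 0 := by
    intro d; unfold N; rw [Finset.card_filter]
  simp_rw [h1]
  rw [Finset.sum_comm]
  simp_rw [L_count]
  rw [Finset.sum_add_distrib, ← Finset.mul_sum]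
  simp

lemma sum_N (S : Finset (ZMod p × ZMod p)) (d : Option (ZMod p)) :
    ∑ b, N S d b = S.card := by
  unfold N
  exact (Finset.card_eq_sum_card_fiberwise (f := fun q => L d q) (t := Finset.univ)
    (fun _ _ => Finset.mem_coe.mpr (Finset.mem_univ _))).symm

lemma N_le (S : Finset (ZMod p × ZMod p)) (d : Option (ZMod p)) (b : ZMod p) : N S d b ≤ p := by
  unfold N
  have hc : (Finset.univ : Finset (ZMod p)).card = p := by rw [Finset.card_univ, ZMod.card]
  conv_rhs => rw [← hc]
  cases d with
  | none =>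
    apply Finset.card_le_card_of_injOn (fun q => q.2) (fun _ _ => Finset.mem_coe.mpr (Finset.mem_univ _))
    intro x hx y hy hxy
    have hx := (Finset.mem_filter.mp (Finset.mem_coe.mp hx)).2
    have hy := (Finset.mem_filter.mp (Finset.mem_coe.mp hy)).2
    simp only [L, Option.elim] at hx hy
    exact Prod.ext (hx.trans hy.symm) hxy
  | some m =>
    apply Finset.card_le_card_of_injOn (fun q => q.1) (fun _ _ => Finset.mem_coe.mpr (Finset.mem_univ _))
    intro x hx y hy hxy
    have hx := (Finset.mem_filter.mp (Finset.mem_coe.mp hx)).2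
    have hy := (Finset.mem_filter.mp (Finset.mem_coe.mp hy)).2
    simp only [L, Option.elim] at hx hy hxy
    refine Prod.ext hxy ?_
    have h1 := hx.trans hy.symm
    rw [hxy] at h1
    exact sub_left_injective h1

lemma second_moment (S : Finset (ZMod p × ZMod p)) :
    ∑ d : Option (ZMod p), ∑ b, (N S d b) ^ 2 = S.card ^ 2 + p * S.card := by
  have h1 : ∀ d : Option (ZMod p), ∑ b, (N S d b) ^ 2 = ∑ q ∈ S, N S d (L d q) := by
    intro d
    rw [← Finset.sum_fiberwise S (fun q => L d q) (fun q => N S d (L d q))]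
    refine Finset.sum_congr rfl fun b _ => ?_
    rw [Finset.sum_congr rfl (g := fun _ => N S d b)]
    · rw [Finset.sum_const, smul_eq_mul, sq]; rfl
    · intro q hq
      rw [(Finset.mem_filter.mp hq).2]
  simp_rw [h1]
  rw [Finset.sum_comm]
  rw [Finset.sum_congr rfl (g := fun _ => S.card + p)]
  · rw [Finset.sum_const, smul_eq_mul]; ring
  · intro q hq
    rw [inversion, if_pos hq, mul_one]

/-- direction vector -/
def vec (e : Option (ZMod p)) : ZMod p × ZMod p := e.elim (0, 1) (fun m => (1, m))

lemma L_vec_self (e : Option (ZMod p)) : L e (vec e) = 0 := by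
  cases e <;> simp [L, vec]

lemma L_vec_ne (d e : Option (ZMod p)) (h : d ≠ e) : L d (vec e) ≠ 0 := by
  cases d with
  | none =>
    cases e with
    | none => exact absurd rfl h
    | some m => simp [L, vec]
  | some m =>
    cases e with
    | none => simp [L, vec]
    | some m' =>
      simp only [L, vec, Option.elim, mul_one]
      intro h0
      apply h
      rw [sub_eq_zero.mp h0]

lemma L_surj (d : Option (ZMod p)) (x : ZMod p) : ∃ q, L d q = x := by
  cases d with
  | none => exact ⟨(x, 0), by simp [L]⟩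
  | some m => exact ⟨(0, x), by simp [L]⟩

theorem poly_of_sum (n : ℕ) : ∀ K : Finset (Option (ZMod p)), K.card = n →
    ∀ (g : Option (ZMod p) → ZMod p → ZMod p) (c : ZMod p),
      (∀ q, ∑ d ∈ K, g d (L d q) = c) → ∀ d ∈ K, PolyC n (g d) := by
  induction n with
  | zero =>
    intro K hK g c _ d hd
    rw [Finset.card_eq_zero] at hK
    rw [hK] at hd; simp at hd
  | succ n ih =>
    intro K hK g c hsum d hd
    by_cases h1 : ∃ e ∈ K, e ≠ d
    · obtain ⟨e, he, hed⟩ := h1
      have hcard : (K.erase e).card = n := by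
        rw [Finset.card_erase_of_mem he, hK]; rfl
      have h2 : ∀ q, ∑ d' ∈ K.erase e, Dl (L d' (vec e)) (g d') (L d' q) = 0 := by
        intro q
        have h3 : ∑ d' ∈ K, Dl (L d' (vec e)) (g d') (L d' q) = 0 := by
          simp only [Dl]
          rw [Finset.sum_sub_distrib]
          have h4 := hsum (q + vec e)
          simp only [L_add] at h4
          rw [h4, hsum q, sub_self]
        rw [← Finset.add_sum_erase _ _ he] at h3
        have h5 : Dl (L e (vec e)) (g e) (L e q) = 0 := by
          rw [L_vec_self]; simp [Dl]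
        rw [h5, zero_add] at h3
        exact h3
      have h6 := ih (K.erase e) hcard (fun d' => Dl (L d' (vec e)) (g d')) 0 h2 d
        (Finset.mem_erase.mpr ⟨hed.symm, hd⟩)
      exact PolyC_of_Dl n _ (L_vec_ne d e hed.symm) _ h6
    · push Not at h1
      have hK1 : K = {d} := by
        apply Finset.eq_singleton_iff_unique_mem.mpr ⟨hd, h1⟩
      have hn : n = 0 := by
        rw [hK1] at hK; simp at hK; omega
      subst hn
      intro h x
      simp only [Dl]
      obtain ⟨q1, hq1⟩ := L_surj d (x + h)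
      obtain ⟨q2, hq2⟩ := L_surj d x
      have e1 := hsum q1
      have e2 := hsum q2
      rw [hK1, Finset.sum_singleton] at e1 e2
      rw [← hq1, ← hq2, e1, e2, sub_self]

/-- equidistribution for monotone test functions -/
theorem equidist_mono (m : ℕ) (g : ZMod p → ZMod p) (hg : PolyC m g) (hn : ¬ ∀ x, g x = g 0)
    (f : ℕ → ℝ) (hf : Monotone f) (h0 : 0 ≤ f 0) (h1 : f (p-1) ≤ 1) :
    |∑ t : ZMod p, f (g t).val - ∑ i ∈ Finset.range p, f i| ≤ 2 * (p * eta p m) := by
  have hp1 : 1 ≤ p := (Fact.out : p.Prime).one_le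
  have hp2 : 2 ≤ p := (Fact.out : p.Prime).two_le
  have hV : ∑ a : ZMod p, ‖((f (a + 1).val : ℝ) : ℂ) - ((f a.val : ℝ) : ℂ)‖ ≤ 2 := by
    have e1 : ∀ a : ZMod p, ‖((f (a + 1).val : ℝ) : ℂ) - ((f a.val : ℝ) : ℂ)‖
        = |f (a + 1).val - f a.val| := by
      intro a
      rw [← Complex.ofReal_sub, Complex.norm_real, Real.norm_eq_abs]
    simp_rw [e1]
    rw [sum_zmod_eq_range (fun a : ZMod p => |f (a + 1).val - f a.val|)]
    obtain ⟨r, hr⟩ : ∃ r, p = r + 1 := ⟨p - 1, by omega⟩
    have e2 : Finset.range p = Finset.range (r + 1) := by rw [hr]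
    rw [e2, Finset.sum_range_succ]
    have e3 : ∑ x ∈ Finset.range r, |f ((x : ZMod p) + 1).val - f ((x : ℕ) : ZMod p).val|
        = ∑ x ∈ Finset.range r, (f (x + 1) - f x) := by
      refine Finset.sum_congr rfl fun x hx => ?_
      have hx := Finset.mem_range.mp hx
      have e4 : ((x : ZMod p) + 1).val = x + 1 := by
        have : ((x : ZMod p) + 1) = ((x + 1 : ℕ) : ZMod p) := by push_cast; ring
        rw [this, ZMod.val_cast_of_lt (by omega)]
      rw [e4, ZMod.val_cast_of_lt (by omega)]
      rw [abs_of_nonneg (sub_nonneg.mpr (hf (Nat.le_succ x)))]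
    have e5 : ((r : ZMod p) + 1).val = 0 := by
      have h8 : ((r + 1 : ℕ) : ZMod p) = 0 := by
        rw [ZMod.natCast_eq_zero_iff]; exact dvd_of_eq hr
      have : ((r : ZMod p) + 1) = ((r + 1 : ℕ) : ZMod p) := by
        push_cast; ring
      rw [this, h8]; exact ZMod.val_zero
    have e6 : ((r : ℕ) : ZMod p).val = r := ZMod.val_cast_of_lt (by omega)
    rw [e3, Finset.sum_range_sub, e5, e6]
    have e7 : f r ≤ 1 := by
      have : r = p - 1 := by omega
      rw [this]; exact h1
    have e8 : f 0 ≤ f r := hf (Nat.zero_le r)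
    rw [abs_sub_comm, abs_of_nonneg (by linarith)]
    linarith
  have key := equidist m g hg hn (fun a => ((f a.val : ℝ) : ℂ)) 2 hV
  have e9 : ∑ a : ZMod p, f a.val = ∑ i ∈ Finset.range p, f i := by
    rw [sum_zmod_eq_range (fun a : ZMod p => f a.val)]
    refine Finset.sum_congr rfl fun i hi => ?_
    rw [ZMod.val_cast_of_lt (Finset.mem_range.mp hi)]
  rw [← e9]
  rw [← Complex.ofReal_sum, ← Complex.ofReal_sum, ← Complex.ofReal_sub, Complex.norm_real,
    Real.norm_eq_abs] at key
  exact key

lemma sum_range_id_div (p : ℕ) (hp : 0 < p) :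
    ∑ i ∈ Finset.range p, ((i : ℝ) / p) = ((p : ℝ) - 1) / 2 := by
  have h : ∀ n : ℕ, ∑ i ∈ Finset.range n, (i : ℝ) = n * (n - 1) / 2 := by
    intro n
    induction n with
    | zero => simp
    | succ n ih => rw [Finset.sum_range_succ, ih]; push_cast; ring
  rw [← Finset.sum_div, h]
  have : (p : ℝ) ≠ 0 := by positivity
  field_simp

lemma sum_range_sq_div (p : ℕ) (hp : 0 < p) :
    ∑ i ∈ Finset.range p, ((i : ℝ) / p) ^ 2 = ((p : ℝ) - 1) * (2 * p - 1) / (6 * p) := by
  have h : ∀ n : ℕ, ∑ i ∈ Finset.range n, (i : ℝ) ^ 2 = n * (n - 1) * (2 * n - 1) / 6 := by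
    intro n
    induction n with
    | zero => simp
    | succ n ih => rw [Finset.sum_range_succ, ih]; push_cast; ring
  simp_rw [div_pow]
  rw [← Finset.sum_div, h]
  have : (p : ℝ) ≠ 0 := by positivity
  field_simp

lemma sum_range_ne_zero (p : ℕ) (hp : 0 < p) :
    ∑ i ∈ Finset.range p, (if i = 0 then (0 : ℝ) else 1) = (p : ℝ) - 1 := by
  obtain ⟨r, rfl⟩ : ∃ r, p = r + 1 := ⟨p - 1, by omega⟩
  rw [Finset.sum_range_succ']
  simp

end Pool.Agent.H693R3.SpecDir
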