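import Pool.Agent.H693R3.SpecDir3

set_option autoImplicit false

namespace Pool.Agent.H693R3.SpecDir

open Finset

variable {p : ℕ} [Fact p.Prime]

/-- statistics of the line counts in a direction whose counts are not constant mod `p` -/
theorem stats (m n : ℕ) (F : ZMod p → ℕ) (hF : ∀ b, F b ≤ p) (hsum : ∑ b, F b = n * p)
    (hg : PolyC m (fun b => (F b : ZMod p)))
    (hn : ¬ ∀ x, ((F x : ℕ) : ZMod p) = ((F 0 : ℕ) : ZMod p)) :
    |(n : ℝ) / p - 1 / 2| ≤ 4 * eta p m + 2 / p ∧
    |(∑ b, (F b : ℝ) ^ 2) / (p : ℝ) ^ 3 - 1 / 3| ≤ 4 * eta p m + 2 / p := by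
  have hp0 : 0 < p := (Fact.out : p.Prime).pos
  have hp1 : 1 ≤ p := hp0
  have hpp : (0 : ℝ) < p := by exact_mod_cast hp0
  set g : ZMod p → ZMod p := fun b => (F b : ZMod p) with hgdef
  have hval : ∀ b, (F b : ℝ) = ((g b).val : ℝ) + p * (if F b = p then 1 else 0) := by
    intro b
    by_cases h : F b = p
    · have : g b = 0 := by rw [hgdef]; simp only; rw [h]; exact ZMod.natCast_self p
      rw [this, if_pos h, h]; simp
    · have h2 : F b < p := lt_of_le_of_ne (hF b) h
      have : (g b).val = F b := by rw [hgdef]; exact ZMod.val_cast_of_lt h2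
      rw [this, if_neg h]; simp
  have hz0 : ∀ b, (if F b = p then (1:ℝ) else 0) ≤ 1 - (if (g b).val = 0 then (0:ℝ) else 1) := by
    intro b
    by_cases h : F b = p
    · have : g b = 0 := by rw [hgdef]; simp only; rw [h]; exact ZMod.natCast_self p
      rw [this, if_pos h]; simp
    · rw [if_neg h]; split_ifs <;> norm_num
  set Z : ℝ := ∑ b, (if F b = p then (1:ℝ) else 0) with hZ
  have hZ0 : 0 ≤ Z := Finset.sum_nonneg fun b _ => by split_ifs <;> norm_num
  have eq0 := equidist_mono m g hg hn (fun i => if i = 0 then (0:ℝ) else 1)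
    (by
      intro a b hab
      simp only
      by_cases hb : b = 0
      · have : a = 0 := by omega
        rw [if_pos this, if_pos hb]
      · rw [if_neg hb]; split_ifs <;> norm_num) (by simp) (by split_ifs <;> norm_num)
  rw [sum_range_ne_zero p hp0] at eq0
  have hZ1 : Z ≤ 1 + 2 * (p * eta p m) := by
    have h1 : Z ≤ ∑ b : ZMod p, (1 - (if (g b).val = 0 then (0:ℝ) else 1)) :=
      Finset.sum_le_sum fun b _ => hz0 b
    rw [Finset.sum_sub_distrib] at h1
    have h2 : ∑ b : ZMod p, (1 : ℝ) = p := by simp [ZMod.card]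
    rw [h2] at h1
    have h3 := (abs_le.mp eq0).1
    linarith
  -- first moment
  have eq1 := equidist_mono m g hg hn (fun i => (i : ℝ) / p)
    (by intro a b hab; simp only; gcongr) (by simp) (by
      rw [div_le_one hpp]; exact_mod_cast Nat.sub_le _ _)
  rw [sum_range_id_div p hp0] at eq1
  have eq2 := equidist_mono m g hg hn (fun i => ((i : ℝ) / p) ^ 2)
    (by intro a b hab; simp only; gcongr) (by simp) (by
      apply pow_le_one₀ (by positivity)
      rw [div_le_one hpp]; exact_mod_cast Nat.sub_le _ _)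
  rw [sum_range_sq_div p hp0] at eq2
  have hn' : ∑ b, (F b : ℝ) / p = n := by
    rw [← Finset.sum_div]
    have : ((∑ b, F b : ℕ) : ℝ) = n * p := by rw [hsum]; push_cast; ring
    push_cast at this
    rw [this]; field_simp
  have hm1 : (n : ℝ) = ∑ t : ZMod p, ((g t).val : ℝ) / p + Z := by
    rw [← hn', hZ, ← Finset.sum_add_distrib]
    refine Finset.sum_congr rfl fun b _ => ?_
    rw [hval b]; field_simp
  have hm2 : (∑ b, (F b : ℝ) ^ 2) / (p : ℝ) ^ 3
      = (∑ t : ZMod p, (((g t).val : ℝ) / p) ^ 2 + Z) / p := by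
    have h1 : ∀ b, (F b : ℝ) ^ 2 = p ^ 2 * ((((g b).val : ℝ) / p) ^ 2 + (if F b = p then (1:ℝ) else 0)) := by
      intro b
      by_cases h : F b = p
      · have : g b = 0 := by rw [hgdef]; simp only; rw [h]; exact ZMod.natCast_self p
        rw [this, if_pos h, h]; simp
      · rw [hval b, if_neg h]; field_simp; ring
    simp_rw [h1]
    rw [← Finset.mul_sum, Finset.sum_add_distrib, ← hZ]
    field_simp
  have hε : 4 * eta p m + 2 / (p : ℝ) = (4 * (p * eta p m) + 2) / p := by
    field_simp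
  constructor
  · have h1 : (n : ℝ) / p - 1 / 2 = (n - p / 2) / p := by field_simp
    rw [h1, hε, abs_div, abs_of_pos hpp]
    apply div_le_div_of_nonneg_right _ hpp.le
    have h2 := abs_le.mp eq1
    rw [abs_le]
    constructor <;> linarith [h2.1, h2.2]
  · rw [hm2, hε]
    have h1 : (∑ t : ZMod p, (((g t).val : ℝ) / p) ^ 2 + Z) / p - 1 / 3
        = (∑ t : ZMod p, (((g t).val : ℝ) / p) ^ 2 + Z - p / 3) / p := by field_simp
    rw [h1, abs_div, abs_of_pos hpp]
    apply div_le_div_of_nonneg_right _ hpp.le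
    have h2 := abs_le.mp eq2
    have h3 : ((p : ℝ) - 1) * (2 * p - 1) / (6 * p) = p / 3 - 1 / 2 + 1 / (6 * p) := by
      field_simp; ring
    rw [h3] at h2
    have h4 : 0 ≤ 1 / (6 * (p : ℝ)) := by positivity
    have h5 : 1 / (6 * (p : ℝ)) ≤ 1 := by
      rw [div_le_one (by positivity)]
      have : (1 : ℝ) ≤ p := by exact_mod_cast hp1
      linarith
    rw [abs_le]
    constructor <;> linarith [h2.1, h2.2]

/-- a direction with counts constant mod p but not constant takes only the values 0 and p -/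
theorem stats_const (n : ℕ) (F : ZMod p → ℕ) (hF : ∀ b, F b ≤ p) (hsum : ∑ b, F b = n * p)
    (hc : ∀ x, ((F x : ℕ) : ZMod p) = ((F 0 : ℕ) : ZMod p)) (hsp : ∃ b, F b ≠ n) :
    (∑ b, (F b : ℝ) ^ 2) / (p : ℝ) ^ 3 = (n : ℝ) / p := by
  have hp0 : 0 < p := (Fact.out : p.Prime).pos
  have hpp : (0 : ℝ) < p := by exact_mod_cast hp0
  have h01 : ∀ b, F b = 0 ∨ F b = p := by
    by_contra hcon
    push Not at hcon
    obtain ⟨b0, hb0, hb0'⟩ := hcon
    have hlt : F b0 < p := lt_of_le_of_ne (hF b0) hb0'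
    have hall : ∀ b, F b = F b0 := by
      intro b
      have h1 : ((F b : ℕ) : ZMod p) = ((F b0 : ℕ) : ZMod p) := by rw [hc b, hc b0]
      by_cases hb : F b = p
      · rw [hb, ZMod.natCast_self] at h1
        have h2 := (ZMod.natCast_eq_zero_iff _ _).mp h1.symm
        have := Nat.le_of_dvd (by omega) h2
        omega
      · have hlt' : F b < p := lt_of_le_of_ne (hF b) hb
        have h3 := congrArg ZMod.val h1
        rwa [ZMod.val_cast_of_lt hlt', ZMod.val_cast_of_lt hlt] at h3
    obtain ⟨b, hb⟩ := hsp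
    apply hb
    have h4 : ∑ b : ZMod p, F b = p * F b0 := by
      rw [Finset.sum_congr rfl (fun b _ => hall b), Finset.sum_const, Finset.card_univ, ZMod.card,
        smul_eq_mul]
    rw [hsum, mul_comm] at h4
    rw [hall b]
    exact (Nat.eq_of_mul_eq_mul_left hp0 h4).symm
  have h1 : ∀ b, (F b : ℝ) ^ 2 = p * F b := by
    intro b
    rcases h01 b with h | h <;> rw [h]
    · simp
    · ring
  simp_rw [h1]
  rw [← Finset.mul_sum]
  have : ((∑ b, F b : ℕ) : ℝ) = n * p := by rw [hsum]; push_cast; ring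
  push_cast at this
  rw [this]; field_simp

theorem core (k : ℕ) (hk : 4 ≤ k) (heps : 4 * eta p k + 2 / (p : ℝ) < 1 / 144)
    (S : Finset (ZMod p × ZMod p)) (hS : p ∣ S.card) :
    {d : Option (ZMod p) | ∃ b : ZMod p, N S d b * p ≠ S.card}.ncard ≠ k := by
  classical
  intro hcard
  have hp0 : 0 < p := (Fact.out : p.Prime).pos
  have hpp : (0 : ℝ) < p := by exact_mod_cast hp0
  obtain ⟨n, hn⟩ := hS
  rw [mul_comm] at hn
  set K : Finset (Option (ZMod p)) :=
    Finset.univ.filter (fun d => ∃ b : ZMod p, N S d b * p ≠ S.card) with hK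
  have hKc : K.card = k := by
    rw [← hcard, ← Set.ncard_coe_finset]
    congr 1
    ext d
    simp [hK]
  have hKmem : ∀ d, d ∈ K ↔ ∃ b, N S d b ≠ n := by
    intro d
    rw [hK, Finset.mem_filter]
    simp only [Finset.mem_univ, true_and]
    constructor
    · rintro ⟨b, hb⟩
      exact ⟨b, fun h => hb (by rw [h, hn])⟩
    · rintro ⟨b, hb⟩
      refine ⟨b, fun h => hb ?_⟩
      rw [hn] at h
      exact Nat.eq_of_mul_eq_mul_right hp0 h
  have hKnot : ∀ d, d ∉ K → ∀ b, N S d b = n := by
    intro d hd b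
    by_contra h
    exact hd ((hKmem d).mpr ⟨b, h⟩)
  -- number of non special directions
  have hcompl : (K.card : ℝ) + (Kᶜ.card : ℝ) = p + 1 := by
    have := Finset.card_add_card_compl K
    rw [Fintype.card_option, ZMod.card] at this
    exact_mod_cast this
  -- the polynomial structure
  have hpoly : ∀ d ∈ K, PolyC k (fun b => ((N S d b : ℕ) : ZMod p)) := by
    apply poly_of_sum k K hKc (fun d b => ((N S d b : ℕ) : ZMod p)) (-((Kᶜ.card : ZMod p) * n))
    intro q
    have h1 := inversion S q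
    have h2 : ((∑ d : Option (ZMod p), N S d (L d q) : ℕ) : ZMod p) = 0 := by
      rw [h1, hn]; push_cast; simp
    rw [← Finset.sum_add_sum_compl K] at h2
    have h3 : ∑ d ∈ Kᶜ, N S d (L d q) = Kᶜ.card * n := by
      rw [Finset.sum_congr rfl (fun d hd => hKnot d (Finset.mem_compl.mp hd) _), Finset.sum_const,
        smul_eq_mul]
    rw [h3] at h2
    push_cast at h2
    linear_combination h2
  -- second moment identity
  set ρ : ℝ := (n : ℝ) / p with hρ
  set A : Option (ZMod p) → ℝ := fun d => (∑ b, (N S d b : ℝ) ^ 2) / (p : ℝ) ^ 3 with hA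
  have hmom : ∑ d ∈ K, A d = ρ + (k - 1) * ρ ^ 2 := by
    have h1 := second_moment S
    have h2 : ∑ d : Option (ZMod p), A d = p * ρ ^ 2 + ρ := by
      simp only [hA]
      rw [← Finset.sum_div]
      have h3 : (∑ d : Option (ZMod p), ∑ b, (N S d b : ℝ) ^ 2) = ((n * p) ^ 2 + p * (n * p) : ℝ) := by
        have := congrArg (fun x : ℕ => (x : ℝ)) h1
        push_cast at this
        rw [this, hn]; push_cast; ring
      rw [h3, hρ]; field_simp
    rw [← Finset.sum_add_sum_compl K] at h2
    have h4 : ∑ d ∈ Kᶜ, A d = Kᶜ.card * ρ ^ 2 := by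
      rw [Finset.sum_congr rfl (g := fun _ => ρ ^ 2), Finset.sum_const, nsmul_eq_mul]
      intro d hd
      simp only [hA]
      rw [Finset.sum_congr rfl (g := fun _ => (n : ℝ) ^ 2), Finset.sum_const, Finset.card_univ,
        ZMod.card, nsmul_eq_mul, hρ]
      · field_simp
      · intro b _
        rw [hKnot d (Finset.mem_compl.mp hd) b]
    rw [h4] at h2
    have h5 : (Kᶜ.card : ℝ) = p + 1 - k := by
      rw [hKc] at hcompl; linarith
    rw [h5] at h2
    linarith
  have hsumN : ∀ d, ∑ b, N S d b = n * p := fun d => by rw [sum_N, hn]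
  by_cases hJ : ∃ d ∈ K, ¬ ∀ x, ((N S d x : ℕ) : ZMod p) = ((N S d 0 : ℕ) : ZMod p)
  · obtain ⟨d0, hd0, hd0'⟩ := hJ
    have hs0 := stats k n (N S d0) (N_le S d0) (hsumN d0) (hpoly d0 hd0) hd0'
    have hρ1 := abs_le.mp hs0.1
    set ε : ℝ := 4 * eta p k + 2 / (p : ℝ) with hε
    have hAge : ∀ d ∈ K, 1 / 3 - ε ≤ A d := by
      intro d hd
      by_cases hc : ∀ x, ((N S d x : ℕ) : ZMod p) = ((N S d 0 : ℕ) : ZMod p)
      · have h1 := stats_const n (N S d) (N_le S d) (hsumN d) hc ((hKmem d).mp hd)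
        simp only [hA]
        rw [h1]
        linarith [hρ1.1]
      · have h1 := abs_le.mp (stats k n (N S d) (N_le S d) (hsumN d) (hpoly d hd) hc).2
        simp only [hA]
        linarith [h1.1]
    have hsumge : (k : ℝ) * (1 / 3 - ε) ≤ ∑ d ∈ K, A d := by
      rw [← hKc, ← nsmul_eq_mul]
      exact Finset.card_nsmul_le_sum K A _ hAge
    rw [hmom] at hsumge
    have hk' : (4 : ℝ) ≤ k := by exact_mod_cast hk
    have hε0 : 0 ≤ ε := le_trans (abs_nonneg _) hs0.1
    have hρ0 : 0 ≤ ρ := by rw [hρ]; positivity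
    have hρ2 : ρ ≤ 1 / 2 + ε := by linarith [hρ1.2]
    have h6 : ρ ^ 2 ≤ 1 / 4 + 2 * ε := by nlinarith
    have h7 : ρ + (k - 1) * ρ ^ 2 ≤ 1 / 2 + ε + (k - 1) * (1 / 4 + 2 * ε) := by
      have : (0 : ℝ) ≤ k - 1 := by linarith
      have := mul_le_mul_of_nonneg_left h6 this
      linarith
    nlinarith
  · push Not at hJ
    have hAeq : ∀ d ∈ K, A d = ρ := by
      intro d hd
      exact stats_const n (N S d) (N_le S d) (hsumN d) (hJ d hd) ((hKmem d).mp hd)
    rw [Finset.sum_congr rfl hAeq, Finset.sum_const, hKc, nsmul_eq_mul] at hmom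
    have hk' : (4 : ℝ) ≤ k := by exact_mod_cast hk
    have h1 : (k - 1) * (ρ * (1 - ρ)) = 0 := by linarith
    have hne : (k : ℝ) - 1 ≠ 0 := by linarith
    have h2 : ρ * (1 - ρ) = 0 := by
      rcases mul_eq_zero.mp h1 with h | h
      · exact absurd h hne
      · exact h
    have hKne : K.Nonempty := by
      rw [← Finset.card_pos]; omega
    obtain ⟨d, hd⟩ := hKne
    obtain ⟨b, hb⟩ := (hKmem d).mp hd
    rcases mul_eq_zero.mp h2 with h | h
    · have hn0 : n = 0 := by
        have : (n : ℝ) = 0 := by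
          rw [hρ, div_eq_zero_iff] at h
          rcases h with h | h
          · exact h
          · exact absurd h hpp.ne'
        exact_mod_cast this
      have h3 := hsumN d
      rw [hn0, zero_mul, Finset.sum_eq_zero_iff] at h3
      exact hb (by rw [h3 b (Finset.mem_univ _), hn0])
    · have hnp : n = p := by
        have : (n : ℝ) = p := by
          have h4 : ρ = 1 := by linarith
          rw [hρ, div_eq_one_iff_eq hpp.ne'] at h4
          exact h4
        exact_mod_cast this
      have h3 := hsumN d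
      have h5 : ∑ b : ZMod p, (p - N S d b) = 0 := by
        have h6 : ∑ b : ZMod p, (p - N S d b) + ∑ b : ZMod p, N S d b = p * p := by
          rw [← Finset.sum_add_distrib, Finset.sum_congr rfl (g := fun _ => p), Finset.sum_const,
            Finset.card_univ, ZMod.card, smul_eq_mul]
          intro b _
          exact Nat.sub_add_cancel (N_le S d b)
        rw [h3, hnp] at h6
        omega
      rw [Finset.sum_eq_zero_iff] at h5
      have h7 := h5 b (Finset.mem_univ _)
      have h8 := N_le S d b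
      apply hb; omega

end Pool.Agent.H693R3.SpecDir
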